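import Mathlib
import Pool.Agent.Helper74.PF.PosB

set_option autoImplicit false

/-!
# The regulator does not depend on the basis
-/

open Filter Topology

namespace Pool.Agent.Helper95.PF

open Pool.Agent.Helper74.PF

variable {G : Type} [AddCommGroup G] {h : G → ℝ}

theorem prg_of_tors (hh : AHt h) {T : G} (hT : IsOfFinAddOrder T) (P : G) : prg h T P = 0 := by
  have h1 := cht_add_of_tors hh hT P
  have h2 := cht_of_tors hh hT
  unfold prg
  rw [h1, h2]
  ring

/-- Expansion of the pairing in the first variable. -/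
theorem prg_expand (hh : AHt h) {r : ℕ} {Q : Fin r → G} {P : G} {a : Fin r → ℤ}
    (ha : IsOfFinAddOrder (P - ∑ j, a j • Q j)) (R : G) :
    prg h P R = ∑ j, (a j : ℝ) * prg h (Q j) R := by
  have e : P = (P - ∑ j, a j • Q j) + ∑ j, a j • Q j := by abel
  rw [e, prg_add_left hh, prg_of_tors hh ha, zero_add, prg_sum_left hh]
  exact Finset.sum_congr rfl fun j _ => prg_zsmul_left hh _ _ _

/-- The Gram matrices of two families, one expressed by the other modulo torsion. -/
theorem gmat_expand (hh : AHt h) {r : ℕ} {P Q : Fin r → G} {A : Fin r → Fin r → ℤ}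
    (hA : ∀ i, IsOfFinAddOrder (P i - ∑ j, A i j • Q j)) :
    gmat h P = (Matrix.of fun i j => (A i j : ℝ)) * gmat h Q
      * (Matrix.of fun i j => (A i j : ℝ)).transpose := by
  ext i j
  have h1 : gmat h P i j = prg h (P i) (P j) := rfl
  rw [h1, prg_expand hh (hA i), Matrix.mul_apply]
  have h2 : ∀ k, prg h (Q k) (P j) = ∑ l, (A j l : ℝ) * prg h (Q k) (Q l) := by
    intro k
    rw [prg_comm, prg_expand hh (hA j)]
    exact Finset.sum_congr rfl fun l _ => by rw [prg_comm]
  simp only [h2, Matrix.mul_apply, Matrix.of_apply, Matrix.transpose_apply, Finset.mul_sum,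
    Finset.sum_mul]
  rw [Finset.sum_comm]
  refine Finset.sum_congr rfl fun l _ => Finset.sum_congr rfl fun k _ => ?_
  have h3 : gmat h Q k l = prg h (Q k) (Q l) := rfl
  rw [h3]
  ring

/-- The two change of basis matrices are inverse to each other. -/
theorem mul_eq_one {r : ℕ} {P Q : Fin r → G} (hP : LinearIndependent ℤ P)
    {A B : Matrix (Fin r) (Fin r) ℤ} (hA : ∀ i, IsOfFinAddOrder (P i - ∑ j, A i j • Q j))
    (hB : ∀ i, IsOfFinAddOrder (Q i - ∑ j, B i j • P j)) : A * B = 1 := by
  have key : ∀ i, (fun k => (1 : Matrix (Fin r) (Fin r) ℤ) i k - (A * B) i k) = 0 := by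
    intro i
    refine indep_tors hP _ ?_
    have e : ∑ k, ((1 : Matrix (Fin r) (Fin r) ℤ) i k - (A * B) i k) • P k
        = (P i - ∑ j, A i j • Q j) + ∑ j, A i j • (Q j - ∑ k, B j k • P k) := by
      simp only [sub_smul, Finset.sum_sub_distrib, smul_sub]
      have e1 : ∑ k, (1 : Matrix (Fin r) (Fin r) ℤ) i k • P k = P i := by
        rw [Finset.sum_eq_single i]
        · rw [Matrix.one_apply_eq, one_smul]
        · intro k _ hk
          rw [Matrix.one_apply_ne (Ne.symm hk), zero_smul]
        · intro hi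
          exact absurd (Finset.mem_univ i) hi
      have e2 : ∑ k, (A * B) i k • P k = ∑ j, A i j • ∑ k, B j k • P k := by
        simp only [Matrix.mul_apply, Finset.sum_smul, Finset.smul_sum, mul_smul]
        rw [Finset.sum_comm]
      rw [e1, e2]
      abel
    rw [e, ← mem_tors_iff]
    refine Submodule.add_mem _ ((mem_tors_iff _).mpr (hA i)) (Submodule.sum_mem _ fun j _ => ?_)
    exact Submodule.smul_mem _ _ ((mem_tors_iff _).mpr (hB j))
  ext i k
  have h1 := congrFun (key i) k
  simp only [Pi.zero_apply] at h1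
  linarith

/-- Two bases modulo torsion have Gram matrices of the same determinant. -/
theorem gram_eq (hh : AHt h) {r : ℕ} {P Q : Fin r → G} (hP : IsMWBasis P) (hQ : IsMWBasis Q) :
    (gmat h P).det = (gmat h Q).det := by
  choose A hA using fun i => hQ.2 (P i)
  choose B hB using fun i => hP.2 (Q i)
  have h1 : (Matrix.of A) * (Matrix.of B) = 1 :=
    mul_eq_one hP.1 (A := Matrix.of A) (B := Matrix.of B) hA hB
  have h2 : (Matrix.of A).det * (Matrix.of B).det = 1 := by
    rw [← Matrix.det_mul, h1, Matrix.det_one]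
  have h3 : (Matrix.of A).det ^ 2 = 1 := by
    rcases Int.isUnit_iff.mp (IsUnit.of_mul_eq_one _ h2) with h | h <;> rw [h] <;> norm_num
  have h4 : (Matrix.of fun i j => (A i j : ℝ)).det = ((Matrix.of A).det : ℝ) := by
    have := (Int.castRingHom ℝ).map_det (Matrix.of A)
    rw [eq_intCast] at this
    rw [this]
    rfl
  rw [gmat_expand hh hA, Matrix.det_mul, Matrix.det_mul, Matrix.det_transpose, h4]
  have h5 : ((Matrix.of A).det : ℝ) ^ 2 = 1 := by exact_mod_cast h3
  linear_combination (gmat h Q).det * h5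

end Pool.Agent.Helper95.PF
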